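import Pool.Agent.Helper8.PR.Model
import Pool.Agent.Helper8.PQ.Defs
import Pool.Agent.Helper8.PQ.Model

/-!
# Registers are simulated by memory states
-/

set_option autoImplicit false

namespace Pool.Agent.Helper8.PR

open Finset
open Pool.Agent.Helper22.ETModel Pool.Agent.Helper22.TSModel
open Pool.Agent.Helper8.PQ (PolQ polFam FewSigns DecidesC)

variable {n D r R c C K d a : ℕ}

lemma eval_sub (I : Inst n) (s : Fin r → WPol n) (f : RPol n r) :
    evalP (sub s f) I = f.val I (fun i => evalP (s i) I) := by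
  unfold evalP sub RPol.val
  rw [Pool.Agent.Helper22.EP.eval_aeval]
  congr 2
  funext y
  rcases y with p | i
  · show MvPolynomial.eval _ (MvPolynomial.X p) = (I.wt p.1 p.2 : ℝ)
    rw [MvPolynomial.eval_X]
  · rfl

/-- The values of the symbolic contents are the contents. -/
lemma conf_sym (A : Mach n D r R) (I : Inst n) (ρ : Fin R → Bool) (t : ℕ) :
    (fun i => evalP (A.sym I ρ t i) I) = (A.conf I ρ t).2 := by
  induction t with
  | zero =>
    funext i
    show evalP (0 : WPol n) I = 0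
    unfold evalP
    rw [map_zero]
  | succ t ih =>
    funext i
    show evalP (sub (A.sym I ρ t) (A.upd I.flag ρ t (A.conf I ρ t).1 i)) I =
      (A.upd I.flag ρ t (A.conf I ρ t).1 i).val I (A.conf I ρ t).2
    rw [eval_sub, ih]

/-- A small set as a list. -/
lemma exists_list {X : Type} (x0 : X) (S : Finset X) (hS : S.card ≤ K) :
    ∃ F : Fin K → X, ∀ f ∈ S, ∃ i, F i = f := by
  classical
  refine ⟨fun i => if h : i.val < S.card then (S.equivFin.symm ⟨i.val, h⟩ : S).val else x0,
    fun f hf => ?_⟩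
  have hlt : (S.equivFin ⟨f, hf⟩).val < S.card := (S.equivFin ⟨f, hf⟩).isLt
  refine ⟨⟨(S.equivFin ⟨f, hf⟩).val, by omega⟩, ?_⟩
  simp only
  rw [dif_pos hlt]
  have : (⟨(S.equivFin ⟨f, hf⟩).val, hlt⟩ : Fin S.card) = S.equivFin ⟨f, hf⟩ := rfl
  rw [this, Equiv.symm_apply_apply]

/-- A numbering of a small set. -/
lemma exists_num {X : Type} (x0 : X) (hC : 1 ≤ C) (S : Finset X) (hS : S.card ≤ C) :
    ∃ (voc : Fin C → X) (num : X → Fin C), ∀ f ∈ S, voc (num f) = f := by
  classical
  obtain ⟨F, hF⟩ := exists_list x0 S hS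
  refine ⟨F, fun f => if h : ∃ i, F i = f then h.choose else ⟨0, hC⟩, fun f hf => ?_⟩
  simp only
  rw [dif_pos (hF f hf)]
  exact (hF f hf).choose_spec

/-- The new contents of the registers. -/
noncomputable def nsy (A : Mach n D r R) (fl : Fin n → Fin n → Bool) (ρ : Fin R → Bool) (t : ℕ)
    (s : ℕ × (Fin r → WPol n)) : Fin r → WPol n :=
  fun i => sub s.2 (A.upd fl ρ t s.1 i)

open Classical in
/-- The query after the substitution. -/
noncomputable def qry (S : Finset (WPol n)) (d a : ℕ) (s : Fin r → WPol n) :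
    Qry n r → PolQ n d a
  | .sign f => if h : sub s f ∈ S ∧ (sub s f).totalDegree ≤ d then .sign (sub s f) h.2
      else .zero 0 (by simp)
  | .zero f => if h : (sub s f).totalDegree ≤ a then .zero (sub s f) h else .zero 0 (by simp)

/-- The simulation. -/
noncomputable def simA (A : Mach n D r R) (d a : ℕ)
    (S : (Fin n → Fin n → Bool) → (Fin R → Bool) → Finset (WPol n))
    (voc : (Fin n → Fin n → Bool) → (Fin R → Bool) → ℕ → Fin C → ℕ × (Fin r → WPol n))
    (num : (Fin n → Fin n → Bool) → (Fin R → Bool) → ℕ → ℕ × (Fin r → WPol n) → Fin C) :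
    Alg n D C R (PolQ n d a) SignType where
  init fl ρ := num fl ρ 0 (A.init fl ρ, fun _ => 0)
  ask fl ρ t s := qry (S fl ρ) d a (nsy A fl ρ t (voc fl ρ t s)) (A.ask fl ρ t (voc fl ρ t s).1)
  next fl ρ t s x := num fl ρ (t + 1) (A.next fl ρ t (voc fl ρ t s).1 x,
    nsy A fl ρ t (voc fl ρ t s))
  out fl ρ s := A.out fl ρ (voc fl ρ D s).1

theorem sim_state (A : Mach n D r R)
    (hz : ∀ (I : Inst n) ρ, ValidC c I → ∀ t < D, ∀ f,
      A.ask I.flag ρ t (A.conf I ρ t).1 = .zero f →
        (sub (A.sym I ρ (t + 1)) f).totalDegree ≤ a)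
    (S : (Fin n → Fin n → Bool) → (Fin R → Bool) → Finset (WPol n))
    (hS : ∀ fl ρ, ∀ I : Inst n, ValidC c I → I.flag = fl → ∀ t < D, ∀ f,
      A.ask fl ρ t (A.conf I ρ t).1 = .sign f →
        sub (A.sym I ρ (t + 1)) f ∈ S fl ρ ∧ (sub (A.sym I ρ (t + 1)) f).totalDegree ≤ d)
    (voc : (Fin n → Fin n → Bool) → (Fin R → Bool) → ℕ → Fin C → ℕ × (Fin r → WPol n))
    (num : (Fin n → Fin n → Bool) → (Fin R → Bool) → ℕ → ℕ × (Fin r → WPol n) → Fin C)
    (hv : ∀ fl ρ, ∀ t ≤ D, ∀ I : Inst n, ValidC c I → I.flag = fl →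
      voc fl ρ t (num fl ρ t ((A.conf I ρ t).1, A.sym I ρ t)) = ((A.conf I ρ t).1, A.sym I ρ t))
    (I : Inst n) (hI : ValidC c I) (ρ : Fin R → Bool) (t : ℕ) (ht : t ≤ D) :
    (simA A d a S voc num).state (polFam n d a) I ρ t =
      num I.flag ρ t ((A.conf I ρ t).1, A.sym I ρ t) := by
  induction t with
  | zero => rfl
  | succ t ih =>
    have ih' := ih (by omega)
    have hvt := hv I.flag ρ t (by omega) I hI rfl
    have hans : (polFam n d a).ans (qry (S I.flag ρ) d a
        (nsy A I.flag ρ t ((A.conf I ρ t).1, A.sym I ρ t))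
        (A.ask I.flag ρ t (A.conf I ρ t).1)) I =
        (A.ask I.flag ρ t (A.conf I ρ t).1).ans I (A.conf I ρ (t + 1)).2 := by
      have hn : nsy A I.flag ρ t ((A.conf I ρ t).1, A.sym I ρ t) = A.sym I ρ (t + 1) := rfl
      rw [hn]
      rcases hq : A.ask I.flag ρ t (A.conf I ρ t).1 with f | f
      · have h3 := hS I.flag ρ I hI rfl t (by omega) f hq
        unfold qry
        simp only
        rw [dif_pos h3]
        show SignType.sign (evalP (sub (A.sym I ρ (t + 1)) f) I) =
          SignType.sign (f.val I (A.conf I ρ (t + 1)).2)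
        rw [eval_sub, conf_sym]
      · have h3 := hz I ρ hI t (by omega) f hq
        unfold qry
        simp only
        rw [dif_pos h3]
        show (if evalP (sub (A.sym I ρ (t + 1)) f) I = 0 then (0 : SignType) else 1) =
          if f.val I (A.conf I ρ (t + 1)).2 = 0 then 0 else 1
        rw [eval_sub, conf_sym]
    have h1 : (simA A d a S voc num).state (polFam n d a) I ρ (t + 1) =
        (simA A d a S voc num).next I.flag ρ t ((simA A d a S voc num).state (polFam n d a) I ρ t)
          ((polFam n d a).ans ((simA A d a S voc num).ask I.flag ρ t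
            ((simA A d a S voc num).state (polFam n d a) I ρ t)) I) := rfl
    rw [h1, ih']
    show num I.flag ρ (t + 1)
      (A.next I.flag ρ t (voc I.flag ρ t (num I.flag ρ t ((A.conf I ρ t).1, A.sym I ρ t))).1
        ((polFam n d a).ans (qry (S I.flag ρ) d a
          (nsy A I.flag ρ t (voc I.flag ρ t (num I.flag ρ t ((A.conf I ρ t).1, A.sym I ρ t))))
          (A.ask I.flag ρ t
            (voc I.flag ρ t (num I.flag ρ t ((A.conf I ρ t).1, A.sym I ρ t))).1)) I),
        nsy A I.flag ρ t (voc I.flag ρ t (num I.flag ρ t ((A.conf I ρ t).1, A.sym I ρ t)))) = _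
    rw [hvt]
    show num I.flag ρ (t + 1)
      (A.next I.flag ρ t (A.conf I ρ t).1
        ((polFam n d a).ans (qry (S I.flag ρ) d a
          (nsy A I.flag ρ t ((A.conf I ρ t).1, A.sym I ρ t))
          (A.ask I.flag ρ t (A.conf I ρ t).1)) I), A.sym I ρ (t + 1)) = _
    rw [hans]
    rfl

/-- The instance without edges. -/
private def zI (n : ℕ) : Inst n := ⟨fun _ _ => false, fun _ _ => 0⟩

private lemma zI_valid (n c : ℕ) : ValidC c (zI n) := by
  refine ⟨fun _ _ => rfl, fun _ => rfl, fun _ _ => rfl, fun i j => ?_⟩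
  show |(0 : ℤ)| ≤ _
  rw [abs_zero]
  positivity

lemma Mach.Within.one_le {A : Mach n D r R} (hA : A.Within c C K d a) : 1 ≤ C := by
  obtain ⟨S, hS, hS'⟩ := hA.space (zI n).flag (fun _ => false) 0 (Nat.zero_le _)
  have := hS' (zI n) (zI_valid n c) rfl
  exact (Finset.card_pos.2 ⟨_, this⟩).trans_le hS

open Classical in
/-- The number of sign queries is at most the number of configurations. -/
lemma Mach.Within.trivial {A : Mach n D r R} (hA : A.Within c C K d a) :
    A.Within c C (C * D) d a := by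
  refine ⟨hA.space, fun fl ρ => ?_, hA.zero⟩
  choose S hS hS' using fun t : Fin D => hA.space fl ρ t.val t.isLt.le
  obtain ⟨S2, -, hS2⟩ := hA.sign fl ρ
  refine ⟨(univ : Finset (Fin D)).biUnion fun t => (S t).image fun s =>
    match A.ask fl ρ t.val s.1 with
    | .sign f => sub (nsy A fl ρ t.val s) f
    | .zero f => sub (nsy A fl ρ t.val s) f, ?_, ?_⟩
  · refine card_biUnion_le.trans ?_
    calc ∑ t : Fin D, _ ≤ ∑ _t : Fin D, C := sum_le_sum fun t _ => card_image_le.trans (hS t)
      _ = C * D := by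
        rw [sum_const, card_univ, Fintype.card_fin, smul_eq_mul, mul_comm]
  · intro I hI hfl t ht f hf
    refine ⟨?_, (hS2 I hI hfl t ht f hf).2⟩
    rw [mem_biUnion]
    refine ⟨⟨t, ht⟩, mem_univ _, ?_⟩
    rw [mem_image]
    refine ⟨((A.conf I ρ t).1, A.sym I ρ t), hS' ⟨t, ht⟩ I hI hfl, ?_⟩
    simp only
    rw [hf]
    subst hfl
    rfl

/-- A machine with registers is simulated by an algorithm without registers. -/
theorem Mach.simulate (A : Mach n D r R) (hA : A.Within c C K d a) (hdec : A.Decides c) :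
    ∃ A' : Alg n D C R (PolQ n d a) SignType, FewSigns A' K ∧ DecidesC A' (polFam n d a) c := by
  classical
  have hC := hA.one_le
  choose S2 hS2 hS2' using hA.sign
  have hex : ∀ fl ρ t, ∃ (voc : Fin C → ℕ × (Fin r → WPol n))
      (num : ℕ × (Fin r → WPol n) → Fin C), t ≤ D → ∀ I : Inst n, ValidC c I → I.flag = fl →
        voc (num ((A.conf I ρ t).1, A.sym I ρ t)) = ((A.conf I ρ t).1, A.sym I ρ t) := by
    intro fl ρ t
    by_cases ht : t ≤ D
    · obtain ⟨S, hS, hS'⟩ := hA.space fl ρ t ht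
      obtain ⟨voc, num, h⟩ := exists_num (0, fun _ => 0) hC S hS
      exact ⟨voc, num, fun _ I hI hfl => h _ (hS' I hI hfl)⟩
    · exact ⟨fun _ => (0, fun _ => 0), fun _ => ⟨0, hC⟩, fun h => absurd h ht⟩
  choose voc num hvn using hex
  have hv : ∀ fl ρ, ∀ t ≤ D, ∀ I : Inst n, ValidC c I → I.flag = fl →
      voc fl ρ t (num fl ρ t ((A.conf I ρ t).1, A.sym I ρ t)) =
        ((A.conf I ρ t).1, A.sym I ρ t) :=
    fun fl ρ t ht I hI hfl => hvn fl ρ t ht I hI hfl
  refine ⟨simA A d a S2 voc num, ?_, ?_⟩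
  · intro fl ρ
    obtain ⟨F, hF⟩ := exists_list (0 : WPol n) (S2 fl ρ) (hS2 fl ρ)
    refine ⟨F, fun t _ v f hf hq => hF f ?_⟩
    have hq' : qry (S2 fl ρ) d a (nsy A fl ρ t (voc fl ρ t v))
        (A.ask fl ρ t (voc fl ρ t v).1) = .sign f hf := hq
    rcases hask : A.ask fl ρ t (voc fl ρ t v).1 with g | g
    · rw [hask] at hq'
      unfold qry at hq'
      simp only at hq'
      split_ifs at hq' with h3
      · injection hq' with h4
        rw [← h4]
        exact h3.1
    · rw [hask] at hq'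
      unfold qry at hq'
      simp only at hq'
      split_ifs at hq'
  · intro I hI
    refine (hdec I hI).trans (Nat.mul_le_mul_left _ (card_le_card ?_))
    intro ρ hρ
    rw [mem_filter] at hρ ⊢
    refine ⟨mem_univ _, ?_⟩
    have h1 : (simA A d a S2 voc num).output (polFam n d a) I ρ = A.output I ρ := by
      show A.out I.flag ρ
        (voc I.flag ρ D ((simA A d a S2 voc num).state (polFam n d a) I ρ D)).1 = _
      rw [sim_state A hA.zero S2 hS2' voc num hv I hI ρ D le_rfl, hv I.flag ρ D le_rfl I hI rfl]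
      rfl
    rw [h1]
    exact hρ.2

end Pool.Agent.Helper8.PR
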