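import Pool.Agent.Helper40.PR.Defs

/-!
# Polynomials with comparable moduli
-/

set_option autoImplicit false

namespace PR

open ContinuousLinearMap Polynomial

theorem poly_norm_le (P Q : ℂ[X]) (h : ∀ t : ℂ, ‖P.eval t‖ ≤ ‖Q.eval t‖) :
    ∃ c : ℂ, ‖c‖ ≤ 1 ∧ P = C c * Q := by
  induction hn : Q.natDegree using Nat.strong_induction_on generalizing P Q with
  | _ n ih =>
    by_cases hQ : Q = 0
    · refine ⟨0, by simp, ?_⟩
      have : P = 0 := by
        apply Polynomial.funext
        intro t
        have := h t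
        rw [hQ] at this
        simpa using this
      rw [this]; simp
    by_cases hr : ∃ z, Q.IsRoot z
    · obtain ⟨z, hz⟩ := hr
      have hPz : P.IsRoot z := by
        have := h z
        rw [hz.eq_zero, norm_zero] at this
        exact norm_le_zero_iff.1 this
      obtain ⟨Q1, hQ1⟩ := (dvd_iff_isRoot.2 hz)
      obtain ⟨P1, hP1⟩ := (dvd_iff_isRoot.2 hPz)
      have hQ10 : Q1 ≠ 0 := by
        rintro rfl
        exact hQ (by rw [hQ1, mul_zero])
      have hdeg : Q1.natDegree < n := by
        have : Q.natDegree = 1 + Q1.natDegree := by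
          rw [hQ1, natDegree_mul (X_sub_C_ne_zero z) hQ10, natDegree_X_sub_C]
        omega
      have h1 : ∀ t : ℂ, ‖P1.eval t‖ ≤ ‖Q1.eval t‖ := by
        have hne : ∀ t : ℂ, t ≠ z → ‖P1.eval t‖ ≤ ‖Q1.eval t‖ := by
          intro t ht
          have := h t
          rw [hQ1, hP1] at this
          simp only [eval_mul, eval_sub, eval_X, eval_C, norm_mul] at this
          have hpos : 0 < ‖t - z‖ := norm_pos_iff.2 (sub_ne_zero.2 ht)
          exact le_of_mul_le_mul_left this hpos
        have hclosed : IsClosed {t : ℂ | ‖P1.eval t‖ ≤ ‖Q1.eval t‖} :=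
          isClosed_le P1.continuous.norm Q1.continuous.norm
        have hdense : Dense ({z}ᶜ : Set ℂ) := dense_compl_singleton z
        intro t
        have hsub : ({z}ᶜ : Set ℂ) ⊆ {t : ℂ | ‖P1.eval t‖ ≤ ‖Q1.eval t‖} := fun t ht => hne t ht
        exact hclosed.closure_subset_iff.2 hsub (hdense t)
      obtain ⟨c, hc, hc'⟩ := ih Q1.natDegree hdeg P1 Q1 h1 rfl
      refine ⟨c, hc, ?_⟩
      rw [hP1, hQ1, hc']
      ring
    · have hdegQ : Q.degree ≤ 0 := by
        by_contra hcon
        push Not at hcon
        obtain ⟨z, hz⟩ := Complex.exists_root hcon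
        exact hr ⟨z, hz⟩
      have hQC := eq_C_of_degree_le_zero hdegQ
      set q := Q.coeff 0 with hq
      have hq0 : q ≠ 0 := by
        intro h0
        apply hQ
        rw [hQC, h0, C_0]
      have hb : ∀ t : ℂ, ‖P.eval t‖ ≤ ‖q‖ := by
        intro t
        have := h t
        rw [hQC] at this
        simpa using this
      have hconst : ∀ t : ℂ, P.eval t = P.eval 0 := by
        intro t
        apply Differentiable.apply_eq_apply_of_bounded P.differentiable
        rw [isBounded_iff_forall_norm_le]
        refine ⟨‖q‖, ?_⟩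
        rintro _ ⟨t, rfl⟩
        exact hb t
      refine ⟨P.eval 0 / q, ?_, ?_⟩
      · rw [norm_div]
        exact div_le_one_of_le₀ (hb 0) (norm_nonneg _)
      · apply Polynomial.funext
        intro t
        rw [hQC, hconst t]
        simp only [eval_mul, eval_C]
        field_simp

/-- Two polynomials with the same modulus everywhere differ by a unimodular constant. -/
theorem poly_norm_eq (P Q : ℂ[X]) (h : ∀ t : ℂ, ‖P.eval t‖ = ‖Q.eval t‖) :
    ∃ c : ℂ, ‖c‖ = 1 ∧ Q = C c * P := by
  obtain ⟨c, hc, hc'⟩ := poly_norm_le Q P (fun t => (h t).ge)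
  by_cases hP : P = 0
  · refine ⟨1, by simp, ?_⟩
    rw [hc', hP]; simp
  · refine ⟨c, ?_, hc'⟩
    obtain ⟨t, ht⟩ : ∃ t : ℂ, P.eval t ≠ 0 := by
      by_contra hcon
      push Not at hcon
      exact hP (Polynomial.funext (fun t => by simpa using hcon t))
    have h1 := h t
    rw [hc'] at h1
    simp only [eval_mul, eval_C, norm_mul] at h1
    have hpos : 0 < ‖P.eval t‖ := norm_pos_iff.2 ht
    nlinarith [hpos]

end PR
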