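import Pool.Agent.Helper28.PR.E1

/-!
# Maps preserving the spectral radius of the skew Lie product: basic facts
-/

namespace PR

open ContinuousLinearMap InnerProductSpace Complex

open scoped ComplexConjugate

namespace E4

section aux

variable {H : Type*} [NormedAddCommGroup H] [InnerProductSpace ℂ H]

lemma unit_inner {x : H} (hx : ‖x‖ = 1) : inner ℂ x x = (1 : ℂ) := by
  rw [inner_self_eq_norm_sq_to_K, hx]; simp

lemma unit_ne {x : H} (hx : ‖x‖ = 1) : x ≠ 0 := by
  rintro rfl; simp at hx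

/-- In a space of dimension two there is a vector which is not a multiple of a given one. -/
lemma exists_not_mem (hH : Dim2 H) (x : H) : ∃ y : H, ∀ c : ℂ, y ≠ c • x := by
  obtain ⟨v, hv⟩ := hH
  by_contra hcon
  push Not at hcon
  obtain ⟨c0, h0⟩ := hcon (v 0)
  obtain ⟨c1, h1⟩ := hcon (v 1)
  have hne0 : c0 ≠ 0 := by
    rintro rfl
    exact hv.ne_zero 0 (by rw [h0, zero_smul])
  have h2 := Fintype.linearIndependent_iff.1 hv ![c1, -c0] (by
    rw [Fin.sum_univ_two, h0, h1]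
    simp only [Matrix.cons_val_zero, Matrix.cons_val_one, smul_smul, neg_mul, neg_smul]
    rw [mul_comm, add_neg_cancel]) 1
  simp at h2
  exact hne0 h2

lemma inner_ne {v w : H} {c : ℂ} (hv : ‖v‖ = 1) (hw : ‖w‖ = 1) (h : w = c • v) :
    inner ℂ v w ≠ (0 : ℂ) := by
  intro h0
  rw [h, inner_smul_right, unit_inner hv, mul_one] at h0
  rw [h, h0, zero_smul, norm_zero] at hw
  exact zero_ne_one hw

lemma dim2_nontrivial (hH : Dim2 H) : Nontrivial H := by
  obtain ⟨v, hv⟩ := hH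
  exact ⟨⟨v 0, 0, hv.ne_zero 0⟩⟩

lemma dim2_of_not_mem {x y : H} (hx : x ≠ 0) (h : ∀ c : ℂ, y ≠ c • x) : Dim2 H := by
  refine ⟨![x, y], ?_⟩
  rw [LinearIndependent.pair_iff' hx]
  intro a ha
  exact h a ha.symm

end aux

section e

variable {H : Type*} [NormedAddCommGroup H] [InnerProductSpace ℂ H] [CompleteSpace H]
variable {K : Type*} [NormedAddCommGroup K] [InnerProductSpace ℂ K] [CompleteSpace K]

/-! ## rank one projections -/

lemma po_adjoint (x y : H) : adjoint (po x y) = po y x := by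
  symm
  rw [ContinuousLinearMap.eq_adjoint_iff]
  intro a b
  simp only [po_apply, inner_smul_left, inner_smul_right, inner_conj_symm]
  ring

lemma po_self_sa (x : H) : IsSelfAdjoint (po x x) := by
  rw [ContinuousLinearMap.isSelfAdjoint_iff', po_adjoint]

lemma real_smul_sa {S : H →L[ℂ] H} (hS : IsSelfAdjoint S) (p : ℝ) :
    IsSelfAdjoint ((p : ℂ) • S) := by
  rw [ContinuousLinearMap.isSelfAdjoint_iff'] at hS ⊢
  rw [map_smulₛₗ, hS]
  simp

/-- a real multiple of a rank one projection is a real scalar only if it vanishes -/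
lemma not_realScalar_smul_po (hH : Dim2 H) {x : H} (hx : ‖x‖ = 1) {p : ℂ} (hp : p ≠ 0) :
    ¬ RealScalar (p • po x x) := by
  rintro ⟨t, ht⟩
  obtain ⟨y, hy⟩ := exists_not_mem hH x
  have h1 := DFunLike.congr_fun ht x
  have h2 := DFunLike.congr_fun ht y
  simp only [smul_apply, po_apply, one_apply_eq_self, unit_inner hx,
    one_smul] at h1 h2
  have h3 : p = (t : ℂ) := smul_left_injective ℂ (unit_ne hx) h1
  rw [← h3] at h2
  have h4 := smul_right_injective H hp h2
  exact hy _ h4.symm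

lemma not_realScalar_corner (hH : Dim2 H) {x : H} (hx : ‖x‖ = 1) :
    ¬ RealScalar (I • ((1 : H →L[ℂ] H) - po x x)) := by
  rintro ⟨t, ht⟩
  obtain ⟨y, hy⟩ := exists_not_mem hH x
  have h1 := DFunLike.congr_fun ht x
  have h2 := DFunLike.congr_fun ht y
  simp only [smul_apply, sub_apply, po_apply,
    one_apply_eq_self, unit_inner hx, one_smul, sub_self, smul_zero] at h1 h2
  have h3 : (t : ℂ) = 0 := by
    rcases smul_eq_zero.1 h1.symm with h | h
    · exact h
    · exact absurd h (unit_ne hx)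
  rw [h3, zero_smul] at h2
  rcases smul_eq_zero.1 h2 with h | h
  · exact I_ne_zero h
  · exact hy _ (sub_eq_zero.1 h)

lemma po_smul_phase {x y : H} {c : ℂ} (h : x = c • y) (hx : ‖x‖ = 1) (hy : ‖y‖ = 1) :
    po x x = po y y := by
  have hc : ‖c‖ = 1 := by
    rw [h, norm_smul, hy, mul_one] at hx; exact hx
  ext z
  simp only [po_apply, h, inner_smul_left, smul_smul]
  congr 1
  have : conj c * c = 1 := by
    rw [Complex.conj_mul', hc]; simp
  calc conj c * inner ℂ y z * c = (conj c * c) * inner ℂ y z := by ring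
    _ = inner ℂ y z := by rw [this, one_mul]

/-- proportional projections -/
lemma parallel_of_smul_po {x y : H} {a b : ℂ} (hb : b ≠ 0) (hx : ‖x‖ = 1) (hy : ‖y‖ = 1)
    (h : a • po x x = b • po y y) : ∃ c : ℂ, ‖c‖ = 1 ∧ y = c • x := by
  have h1 := DFunLike.congr_fun h y
  simp only [smul_apply, po_apply, unit_inner hy, one_smul, smul_smul] at h1
  have h2 : y = (b⁻¹ * (a * inner ℂ x y)) • x := by
    rw [mul_smul, h1, smul_smul, inv_mul_cancel₀ hb, one_smul]
  refine ⟨_, ?_, h2⟩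
  have h3 := congrArg norm h2
  rw [norm_smul, hx, hy, mul_one] at h3
  exact h3.symm

lemma commute_po_of_orth {x y : H} (h : inner ℂ x y = (0 : ℂ)) : Commute (po x x) (po y y) := by
  have h' : inner ℂ y x = (0 : ℂ) := by rw [← inner_conj_symm, h, map_zero]
  ext z
  simp [mul_apply_eq_comp, h, h']

lemma commute_po {x y : H} (hx : ‖x‖ = 1) (hy : ‖y‖ = 1)
    (h : Commute (po x x) (po y y)) : inner ℂ x y = (0 : ℂ) ∨ ∃ c : ℂ, ‖c‖ = 1 ∧ x = c • y := by
  by_cases h0 : inner ℂ x y = (0 : ℂ)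
  · exact Or.inl h0
  · right
    have h1 := DFunLike.congr_fun h.eq y
    simp only [mul_apply_eq_comp, po_apply, unit_inner hy, one_smul, inner_smul_right] at h1
    have h2 : x = inner ℂ y x • y := by
      rw [mul_smul] at h1
      exact smul_right_injective H h0 h1
    refine ⟨_, ?_, h2⟩
    have h3 := congrArg norm h2
    rw [norm_smul, hx, hy, mul_one] at h3
    exact h3.symm

lemma skb_eq_zero_iff {T S : H →L[ℂ] H} : skb T S = 0 ↔ T * S = S * adjoint T := by
  rw [skb, sub_eq_zero]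

lemma sr_skb_eq_zero_iff {T S : H →L[ℂ] H} (hS : IsSelfAdjoint S) :
    sr (skb T S) = 0 ↔ T * S = S * adjoint T := by
  rw [e_test_sa T hS, norm_eq_zero, skb_eq_zero_iff]

lemma sr_skb_sa_iff {A B : H →L[ℂ] H} (hA : IsSelfAdjoint A) (hB : IsSelfAdjoint B) :
    sr (skb A B) = 0 ↔ Commute A B := by
  rw [sr_skb_eq_zero_iff hB, ContinuousLinearMap.isSelfAdjoint_iff'.1 hA]
  exact Iff.rfl

/-- A correspondence preserving the spectral radius of the skew Lie product. -/
structure RelE (R : (H →L[ℂ] H) → (K →L[ℂ] K) → Prop) : Prop where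
  left : ∀ T, ∃ S, R T S
  right : ∀ S, ∃ T, R T S
  pres : ∀ {T1 T2 : H →L[ℂ] H} {S1 S2 : K →L[ℂ] K}, R T1 S1 → R T2 S2 →
    sr (skb S1 S2) = sr (skb T1 T2)

namespace RelE

variable {R : (H →L[ℂ] H) → (K →L[ℂ] K) → Prop}

theorem flip (h : RelE R) : RelE (fun (S : K →L[ℂ] K) (T : H →L[ℂ] H) => R T S) :=
  ⟨h.right, h.left, fun h1 h2 => (h.pres h1 h2).symm⟩

theorem real_iff (h : RelE R) {T : H →L[ℂ] H} {S : K →L[ℂ] K} (hTS : R T S) :
    RealScalar T ↔ RealScalar S := by
  rw [← e_null_left, ← e_null_left]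
  constructor
  · intro hT S'
    obtain ⟨T', hT'⟩ := h.right S'
    rw [h.pres hTS hT']; exact hT T'
  · intro hS T'
    obtain ⟨S', hS'⟩ := h.left T'
    rw [← h.pres hTS hS']; exact hS S'

theorem zero_iff (h : RelE R) {T : H →L[ℂ] H} {S : K →L[ℂ] K} (hTS : R T S) :
    T = 0 ↔ S = 0 := by
  rw [← e_null_right, ← e_null_right]
  constructor
  · intro hT S'
    obtain ⟨T', hT'⟩ := h.right S'
    rw [h.pres hT' hTS]; exact hT T'
  · intro hS T'
    obtain ⟨S', hS'⟩ := h.left T'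
    rw [← h.pres hS' hTS]; exact hS S'

theorem sa_iff (h : RelE R) [Nontrivial H] {T : H →L[ℂ] H} {S : K →L[ℂ] K} (hTS : R T S) :
    IsSelfAdjoint T ↔ IsSelfAdjoint S := by
  obtain ⟨S1, hS1⟩ := h.left (1 : H →L[ℂ] H)
  obtain ⟨t, ht⟩ : RealScalar S1 := (h.real_iff hS1).1 ⟨1, by simp⟩
  have h0 : S1 ≠ 0 := fun h0 => one_ne_zero ((h.zero_iff hS1).2 h0)
  have ht0 : (t : ℂ) ≠ 0 := by
    intro h00
    apply h0; rw [ht, h00, zero_smul]
  have e := h.pres hTS hS1
  rw [ht, e_scalar_right] at e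
  have e2 : sr (skb T 1) = ‖T - adjoint T‖ := by simpa using e_scalar_right T 1
  rw [e2] at e
  rw [ContinuousLinearMap.isSelfAdjoint_iff', ContinuousLinearMap.isSelfAdjoint_iff']
  constructor
  · intro hT
    rw [hT, sub_self, norm_zero] at e
    have e3 := (mul_eq_zero.1 e).resolve_left (norm_ne_zero_iff.2 ht0)
    exact (sub_eq_zero.1 (norm_eq_zero.1 e3)).symm
  · intro hS
    rw [hS, sub_self, norm_zero, mul_zero] at e
    exact (sub_eq_zero.1 (norm_eq_zero.1 e.symm)).symm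

theorem commute_iff (h : RelE R) [Nontrivial H] {A B : H →L[ℂ] H} {A' B' : K →L[ℂ] K}
    (hA : R A A') (hB : R B B') (hAs : IsSelfAdjoint A) (hBs : IsSelfAdjoint B) :
    Commute A B ↔ Commute A' B' := by
  rw [← sr_skb_sa_iff hAs hBs, ← sr_skb_sa_iff ((h.sa_iff hA).1 hAs) ((h.sa_iff hB).1 hBs),
    h.pres hA hB]

theorem nontrivial (h : RelE R) [Nontrivial H] : Nontrivial K := by
  by_contra hK
  rw [not_nontrivial_iff_subsingleton] at hK
  obtain ⟨S1, hS1⟩ := h.left (1 : H →L[ℂ] H)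
  have : S1 = 0 := by ext z; exact Subsingleton.elim _ _
  exact one_ne_zero ((h.zero_iff hS1).2 this)

theorem dim2 (h : RelE R) (hH : Dim2 H) : Dim2 K := by
  have hnt := dim2_nontrivial hH
  have hntK : Nontrivial K := h.nontrivial
  obtain ⟨z, hz⟩ := exists_ne (0 : H)
  obtain ⟨v, hv⟩ := exists_ne (0 : K)
  have hx : ‖(((‖z‖ : ℝ) : ℂ)⁻¹ • z)‖ = 1 := by
    rw [norm_smul, norm_inv, Complex.norm_real, norm_norm,
      inv_mul_cancel₀ (norm_ne_zero_iff.2 hz)]
  set x : H := ((‖z‖ : ℝ) : ℂ)⁻¹ • z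
  obtain ⟨A, hA⟩ := h.left (po x x)
  have hsa : IsSelfAdjoint A := (h.sa_iff hA).1 (po_self_sa x)
  have hns : ¬ RealScalar A := by
    rw [← h.real_iff hA]
    simpa using not_realScalar_smul_po hH hx (p := 1) one_ne_zero
  by_contra hK
  have hpar : ∀ y : K, ∃ c : ℂ, y = c • v := by
    intro y
    by_contra hcon
    push Not at hcon
    exact hK (dim2_of_not_mem hv hcon)
  obtain ⟨a, ha⟩ := hpar (A v)
  have hscal : A = a • (1 : K →L[ℂ] K) := by
    ext y
    obtain ⟨c, rfl⟩ := hpar y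
    simp [ha, smul_smul, mul_comm]
  have hreal : conj a = a := by
    have h1 := ContinuousLinearMap.isSelfAdjoint_iff'.1 hsa
    have h2 : inner ℂ (adjoint A v) v = inner ℂ v (A v) := ContinuousLinearMap.adjoint_inner_left _ _ _
    rw [h1, ha, inner_smul_left, inner_smul_right] at h2
    exact mul_right_cancel₀ (inner_self_ne_zero.2 hv) h2
  apply hns
  obtain ⟨r, hr⟩ := Complex.conj_eq_iff_real.1 hreal
  exact ⟨r, by rw [hscal, hr]⟩

end RelE

end e

end E4

section pres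

variable {H : Type*} [NormedAddCommGroup H] [InnerProductSpace ℂ H] [CompleteSpace H]
variable {K : Type*} [NormedAddCommGroup K] [InnerProductSpace ℂ K] [CompleteSpace K]

variable {φ : (H →L[ℂ] H) → (K →L[ℂ] K)}

theorem E4.relE (hφ : PresE φ) : E4.RelE (fun T S => φ T = S) where
  left T := ⟨φ T, rfl⟩
  right S := hφ.surj S
  pres := by
    rintro T1 T2 S1 S2 rfl rfl
    exact hφ.pres T1 T2

/-- `φ` preserves self-adjointness in both directions. -/
theorem e_sa_iff (hφ : PresE φ) [Nontrivial H] [Nontrivial K] (T : H →L[ℂ] H) :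
    IsSelfAdjoint T ↔ IsSelfAdjoint (φ T) :=
  (E4.relE hφ).sa_iff rfl

theorem e_real_iff (hφ : PresE φ) (T : H →L[ℂ] H) : RealScalar T ↔ RealScalar (φ T) :=
  (E4.relE hφ).real_iff rfl

theorem e_zero_iff (hφ : PresE φ) (T : H →L[ℂ] H) : T = 0 ↔ φ T = 0 :=
  (E4.relE hφ).zero_iff rfl

theorem e_commute_iff (hφ : PresE φ) [Nontrivial H] [Nontrivial K] {A B : H →L[ℂ] H}
    (hA : IsSelfAdjoint A) (hB : IsSelfAdjoint B) : Commute A B ↔ Commute (φ A) (φ B) :=
  (E4.relE hφ).commute_iff rfl rfl hA hB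

theorem e_dim2 (hφ : PresE φ) [Nontrivial H] [Nontrivial K] : Dim2 H ↔ Dim2 K :=
  ⟨(E4.relE hφ).dim2, (E4.relE hφ).flip.dim2⟩

end pres

end PR
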