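import Pool.Agent.Helper22.ETModel

/-!
# Real register machines with little memory

Definitions only.
-/

set_option autoImplicit false

namespace Pool.Agent.Helper8.PR

open Pool.Agent.Helper22.ETModel

/-- The real polynomials in all the weights. -/
abbrev WPol (n : ℕ) := MvPolynomial (Fin n × Fin n) ℝ

/-- The real polynomials in all the weights and all the registers. -/
abbrev RPol (n r : ℕ) := MvPolynomial ((Fin n × Fin n) ⊕ Fin r) ℝ

/-- The queries: the sign of a polynomial in all the weights and all the registers, and the
question whether such a polynomial is zero. -/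
inductive Qry (n r : ℕ)
  | sign (f : RPol n r)
  | zero (f : RPol n r)

variable {n D r R : ℕ}

/-- The value of a polynomial, when `x` are the contents of the registers. -/
noncomputable def RPol.val (f : RPol n r) (I : Inst n) (x : Fin r → ℝ) : ℝ :=
  MvPolynomial.eval (Sum.elim (fun p : Fin n × Fin n => (I.wt p.1 p.2 : ℝ)) x) f

open Classical in
/-- The answer to a query. The answer to a zero test is `0` if the polynomial vanishes and `1`
otherwise. -/
noncomputable def Qry.ans (Q : Qry n r) (I : Inst n) (x : Fin r → ℝ) : SignType :=
  match Q with
  | .sign f => SignType.sign (f.val I x)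
  | .zero f => if f.val I x = 0 then 0 else 1

/-- A randomized adaptive machine for `n`-vertex instances with a memory (which contains a natural
number) and `r` real registers, which makes `D` steps and uses `R` random bits. In every step all
registers are rewritten: the new content of a register is the value of a real polynomial in all
the weights and the old contents of all registers. Then one query is asked and the memory is
changed. Everything may depend in an arbitrary way on the flags, the random bits, the time and the
memory. -/
structure Mach (n D r R : ℕ) where
  init : (Fin n → Fin n → Bool) → (Fin R → Bool) → ℕ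
  upd : (Fin n → Fin n → Bool) → (Fin R → Bool) → ℕ → ℕ → Fin r → RPol n r
  ask : (Fin n → Fin n → Bool) → (Fin R → Bool) → ℕ → ℕ → Qry n r
  next : (Fin n → Fin n → Bool) → (Fin R → Bool) → ℕ → ℕ → SignType → ℕ
  out : (Fin n → Fin n → Bool) → (Fin R → Bool) → ℕ → Bool

/-- The memory and the contents of the registers after `t` steps. In the beginning all registers
contain `0`. -/
noncomputable def Mach.conf (A : Mach n D r R) (I : Inst n) (ρ : Fin R → Bool) :
    ℕ → ℕ × (Fin r → ℝ)
  | 0 => (A.init I.flag ρ, fun _ => 0)
  | t + 1 =>
    let v := (A.conf I ρ t).1
    let x : Fin r → ℝ := fun i => (A.upd I.flag ρ t v i).val I (A.conf I ρ t).2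
    (A.next I.flag ρ t v ((A.ask I.flag ρ t v).ans I x), x)

/-- The output after `D` steps. -/
noncomputable def Mach.output (A : Mach n D r R) (I : Inst n) (ρ : Fin R → Bool) : Bool :=
  A.out I.flag ρ (A.conf I ρ D).1

/-- Valid instances with weights in `[-n ^ c, n ^ c]`: symmetric and loopless. For `c = 300`
these are the instances of the problem. -/
def ValidC (c : ℕ) (I : Inst n) : Prop :=
  (∀ i j, I.flag i j = I.flag j i) ∧ (∀ i, I.flag i i = false) ∧
  (∀ i j, I.wt i j = I.wt j i) ∧ (∀ i j, |I.wt i j| ≤ (n : ℤ) ^ c)

open Classical in
/-- The machine decides Exact Triangle for weights in `[-n ^ c, n ^ c]` with bounded error: on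
every such valid instance the output is correct with probability at least `2/3` over the random
bits. -/
def Mach.Decides (A : Mach n D r R) (c : ℕ) : Prop :=
  ∀ I : Inst n, ValidC c I →
    2 * 2 ^ R ≤
      3 * (Finset.univ.filter fun ρ : Fin R → Bool => (A.output I ρ = true ↔ I.Yes)).card

/-- Substitute the polynomials `s` for the registers. -/
noncomputable def sub (s : Fin r → WPol n) (f : RPol n r) : WPol n :=
  MvPolynomial.aeval (Sum.elim MvPolynomial.X s) f

/-- The polynomials in the weights whose values are the contents of the registers after `t`
steps. -/
noncomputable def Mach.sym (A : Mach n D r R) (I : Inst n) (ρ : Fin R → Bool) :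
    ℕ → Fin r → WPol n
  | 0 => fun _ => 0
  | t + 1 => fun i => sub (A.sym I ρ t) (A.upd I.flag ρ t (A.conf I ρ t).1 i)

/-- The restrictions, for fixed flags and random bits and all valid instances with weights in
`[-n ^ c, n ^ c]`:
* at every time at most `C` different configurations occur; a configuration consists of the
  memory and the polynomials in the weights which are the contents of the registers;
* at all times together at most `K` different polynomials in the weights are asked for their
  signs, all of total degree at most `d`;
* the polynomials in the weights in zero tests have total degree at most `a` (their number is not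
  restricted). -/
structure Mach.Within (A : Mach n D r R) (c C K d a : ℕ) : Prop where
  space : ∀ fl ρ, ∀ t ≤ D, ∃ S : Finset (ℕ × (Fin r → WPol n)), S.card ≤ C ∧
    ∀ I : Inst n, ValidC c I → I.flag = fl → ((A.conf I ρ t).1, A.sym I ρ t) ∈ S
  sign : ∀ fl ρ, ∃ S : Finset (WPol n), S.card ≤ K ∧
    ∀ I : Inst n, ValidC c I → I.flag = fl → ∀ t < D, ∀ f,
      A.ask fl ρ t (A.conf I ρ t).1 = .sign f →
        sub (A.sym I ρ (t + 1)) f ∈ S ∧ (sub (A.sym I ρ (t + 1)) f).totalDegree ≤ d
  zero : ∀ (I : Inst n) ρ, ValidC c I → ∀ t < D, ∀ f,
      A.ask I.flag ρ t (A.conf I ρ t).1 = .zero f →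
        (sub (A.sym I ρ (t + 1)) f).totalDegree ≤ a

end Pool.Agent.Helper8.PR
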