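import Pool.Agent.Helper8.PR.E4A
import Pool.Agent.Helper65.PR.E2
import Pool.Agent.Helper41.PR.E3

/-!
# Maps preserving the spectral radius of the skew Lie product: images of rank one projections
-/

namespace PR

open ContinuousLinearMap InnerProductSpace Complex

open scoped ComplexConjugate

namespace E4

section e

variable {H : Type*} [NormedAddCommGroup H] [InnerProductSpace ℂ H] [CompleteSpace H]
variable {K : Type*} [NormedAddCommGroup K] [InnerProductSpace ℂ K] [CompleteSpace K]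

namespace RelE

variable {R : (H →L[ℂ] H) → (K →L[ℂ] K) → Prop}

/-- the image of a rank one projection -/
theorem image_P (h : RelE R) (hH : Dim2 H) {x : H} (hx : ‖x‖ = 1) {S' : K →L[ℂ] K}
    (hS' : R (po x x) S') :
    ∃ (a : ℝ) (u : K), a ≠ 0 ∧ ‖u‖ = 1 ∧ S' = (a : ℂ) • po u u ∧
      ∀ (p : ℝ) (S : K →L[ℂ] K), R ((p : ℂ) • po x x) S → ∃ q : ℝ, S = (q : ℂ) • po u u := by
  have hnt := dim2_nontrivial hH
  have hsa' : IsSelfAdjoint S' := (h.sa_iff hS').1 (po_self_sa x)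
  have hns' : ¬ RealScalar S' := by
    rw [← h.real_iff hS']
    simpa using not_realScalar_smul_po hH hx (p := 1) one_ne_zero
  obtain ⟨Q, α, β, hQ, hQ2, hα, hSQ⟩ := two_valued hsa' hns' (by
    intro B hB hZ
    obtain ⟨B0, hB0⟩ := h.right B
    have hB0s : IsSelfAdjoint B0 := (h.sa_iff hB0).2 hB
    obtain ⟨α, β, hαβ⟩ := P_maximal hx hB0s (by
      intro Z0 hZ0 hc
      obtain ⟨Z, hZr⟩ := h.left Z0
      have hZs : IsSelfAdjoint Z := (h.sa_iff hZr).1 hZ0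
      rw [h.commute_iff hZr hS' hZ0 (po_self_sa x)] at hc
      rw [h.commute_iff hZr hB0 hZ0 hB0s]
      exact hZ Z hZs hc)
    by_cases hα : α = 0
    · left
      rw [← h.real_iff hB0]
      exact ⟨β, by rw [hαβ, hα]; simp⟩
    · right
      intro Z hZs hc
      obtain ⟨Z0, hZ0⟩ := h.right Z
      have hZ0s : IsSelfAdjoint Z0 := (h.sa_iff hZ0).2 hZs
      rw [← h.commute_iff hZ0 hB0 hZ0s hB0s] at hc
      rw [← h.commute_iff hZ0 hS' hZ0s (po_self_sa x)]
      have hP : po x x = (α : ℂ)⁻¹ • (B0 - (β : ℂ) • (1 : H →L[ℂ] H)) := by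
        rw [hαβ, add_sub_cancel_right, smul_smul, inv_mul_cancel₀ (by exact_mod_cast hα), one_smul]
      rw [hP]
      exact (hc.sub_right ((Commute.one_right Z0).smul_right _)).smul_right _)
  obtain ⟨T1, hT1⟩ := h.left (I • ((1 : H →L[ℂ] H) - po x x))
  have key : ∀ {S0 : H →L[ℂ] H} {S : K →L[ℂ] K}, R S0 S → IsSelfAdjoint S0 →
      (T1 * S = S * adjoint T1 ↔ ∃ p : ℝ, S0 = (p : ℂ) • po x x) := by
    intro S0 S hr hs
    rw [← e_corner_model hx hs, ← sr_skb_eq_zero_iff hs,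
      ← sr_skb_eq_zero_iff ((h.sa_iff hr).1 hs), h.pres hT1 hr]
  obtain ⟨a, u, ha, hu, hau, hlast⟩ := e_corner (T1 := T1) hQ hQ2 hα hSQ hns'
    ((key hS' (po_self_sa x)).2 ⟨1, by simp⟩)
    (by rw [← h.real_iff hT1]; exact not_realScalar_corner hH hx)
    (by
      intro S hS hT1S hS0
      obtain ⟨S0, hr⟩ := h.right S
      have hs0 : IsSelfAdjoint S0 := (h.sa_iff hr).2 hS
      obtain ⟨p, hp⟩ := (key hr hs0).1 hT1S
      have hp0 : (p : ℂ) ≠ 0 := by
        intro hp0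
        apply hS0
        rw [← h.zero_iff hr, hp, hp0, zero_smul]
      refine ⟨?_, ?_⟩
      · rw [← h.real_iff hr, hp]
        exact not_realScalar_smul_po hH hx hp0
      · intro Z hZ hc
        obtain ⟨Z0, hZ0⟩ := h.right Z
        have hZ0s : IsSelfAdjoint Z0 := (h.sa_iff hZ0).2 hZ
        rw [← h.commute_iff hZ0 hS' hZ0s (po_self_sa x)] at hc
        rw [← h.commute_iff hZ0 hr hZ0s hs0, hp]
        exact hc.smul_right _)
  refine ⟨a, u, ha, hu, hau, ?_⟩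
  intro p S hr
  have hs0 : IsSelfAdjoint ((p : ℂ) • po x x) := real_smul_sa (po_self_sa x) p
  obtain ⟨q, hq⟩ := hlast S ((h.sa_iff hr).1 hs0) ((key hr hs0).2 ⟨p, rfl⟩)
  exact ⟨q * a, by rw [hq, hau, smul_smul]; push_cast; rfl⟩

end RelE

end e

end E4

section pres

variable {H : Type*} [NormedAddCommGroup H] [InnerProductSpace ℂ H] [CompleteSpace H]
variable {K : Type*} [NormedAddCommGroup K] [InnerProductSpace ℂ K] [CompleteSpace K]

variable {φ : (H →L[ℂ] H) → (K →L[ℂ] K)}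

/-- The image of a rank one projection. -/
theorem e_image_P (hφ : PresE φ) (hH : Dim2 H) {x : H} (hx : ‖x‖ = 1) :
    ∃ (a : ℝ) (u : K), a ≠ 0 ∧ ‖u‖ = 1 ∧ φ (po x x) = (a : ℂ) • po u u ∧
      ∀ p : ℝ, ∃ q : ℝ, φ ((p : ℂ) • po x x) = (q : ℂ) • po u u := by
  obtain ⟨a, u, ha, hu, hau, h⟩ := (E4.relE hφ).image_P hH hx rfl
  exact ⟨a, u, ha, hu, hau, fun p => h p _ rfl⟩

/-- Rank one projections are, up to a factor, images of rank one projections. -/
theorem e_preimage_P (hφ : PresE φ) (hH : Dim2 H) {u : K} (hu : ‖u‖ = 1) :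
    ∃ (a : ℝ) (x : H), a ≠ 0 ∧ ‖x‖ = 1 ∧ φ (po x x) = (a : ℂ) • po u u := by
  have hR := E4.relE hφ
  have hK : Dim2 K := hR.dim2 hH
  have hnt := E4.dim2_nontrivial hH
  have hntK := E4.dim2_nontrivial hK
  obtain ⟨T, hT⟩ := hφ.surj (po u u)
  obtain ⟨a, x, ha, hx, hax, -⟩ := hR.flip.image_P hK hu hT
  obtain ⟨T1, hT1⟩ := hφ.surj (I • ((1 : K →L[ℂ] K) - po u u))
  have ha' : (a : ℂ) ≠ 0 := by exact_mod_cast ha
  have hTs : IsSelfAdjoint T := by
    rw [hax]; exact E4.real_smul_sa (E4.po_self_sa x) a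
  have h1 : T1 * T = T * adjoint T1 := by
    rw [← E4.sr_skb_eq_zero_iff hTs, ← hφ.pres, hT1, hT, E4.sr_skb_eq_zero_iff (E4.po_self_sa u),
      e_corner_model hu (E4.po_self_sa u)]
    exact ⟨1, by simp⟩
  have h2 : T1 * po x x = po x x * adjoint T1 := by
    rw [hax, mul_smul_comm, smul_mul_assoc] at h1
    exact smul_right_injective _ ha' h1
  have h3 : IsSelfAdjoint (φ (po x x)) := (e_sa_iff hφ _).1 (E4.po_self_sa x)
  rw [← E4.sr_skb_eq_zero_iff (E4.po_self_sa x), ← hφ.pres, hT1, E4.sr_skb_eq_zero_iff h3,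
    e_corner_model hu h3] at h2
  obtain ⟨p, hp⟩ := h2
  refine ⟨p, x, ?_, hx, hp⟩
  rintro rfl
  rw [ofReal_zero, zero_smul, ← e_zero_iff hφ] at hp
  have h4 := DFunLike.congr_fun hp x
  simp only [po_apply, E4.unit_inner hx, one_smul, zero_apply] at h4
  exact E4.unit_ne hx h4

/-- The induced map on unit vectors. -/
theorem e_rays (hφ : PresE φ) (hH : Dim2 H) :
    ∃ π : H → K, (∀ x, ‖x‖ = 1 → ‖π x‖ = 1 ∧
        ∃ a : ℝ, a ≠ 0 ∧ φ (po x x) = (a : ℂ) • po (π x) (π x)) ∧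
      (∀ u : K, ‖u‖ = 1 → ∃ x, ‖x‖ = 1 ∧ ∃ θ : ℂ, ‖θ‖ = 1 ∧ u = θ • π x) ∧
      (∀ x y, ‖x‖ = 1 → ‖y‖ = 1 → (inner ℂ x y = (0 : ℂ) ↔ inner ℂ (π x) (π y) = (0 : ℂ))) := by
  classical
  have hR := E4.relE hφ
  have hK : Dim2 K := hR.dim2 hH
  have hnt := E4.dim2_nontrivial hH
  have hntK := E4.dim2_nontrivial hK
  have hex : ∀ x : H, ∃ u : K, ‖x‖ = 1 → ‖u‖ = 1 ∧
      ∃ a : ℝ, a ≠ 0 ∧ φ (po x x) = (a : ℂ) • po u u := by
    intro x
    by_cases hx : ‖x‖ = 1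
    · obtain ⟨a, u, ha, hu, hau, -⟩ := e_image_P hφ hH hx
      exact ⟨u, fun _ => ⟨hu, a, ha, hau⟩⟩
    · exact ⟨0, fun h => absurd h hx⟩
  choose π hπ using hex
  have par : ∀ {x y : H}, ‖x‖ = 1 → ‖y‖ = 1 → (∃ c : ℂ, ‖c‖ = 1 ∧ π x = c • π y) →
      ∃ c : ℂ, ‖c‖ = 1 ∧ y = c • x := by
    rintro x y hx hy ⟨c, hc, hcxy⟩
    obtain ⟨hπx, a, ha, hax⟩ := hπ x hx
    obtain ⟨hπy, b, hb, hby⟩ := hπ y hy
    have hpo : po (π x) (π x) = po (π y) (π y) := E4.po_smul_phase hcxy hπx hπy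
    have hsx := E4.po_self_sa x
    have hsy := E4.po_self_sa y
    have ha' : (a : ℂ) ≠ 0 := by exact_mod_cast ha
    have h1 : (I • ((1 : H →L[ℂ] H) - po x x)) * po x x =
        po x x * adjoint (I • ((1 : H →L[ℂ] H) - po x x)) :=
      (e_corner_model hx hsx).2 ⟨1, by simp⟩
    rw [← E4.sr_skb_eq_zero_iff hsx, ← hφ.pres, E4.sr_skb_eq_zero_iff ((e_sa_iff hφ _).1 hsx), hax,
      mul_smul_comm, smul_mul_assoc] at h1
    have h2 := smul_right_injective _ ha' h1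
    have h3 : φ (I • ((1 : H →L[ℂ] H) - po x x)) * φ (po y y) =
        φ (po y y) * adjoint (φ (I • ((1 : H →L[ℂ] H) - po x x))) := by
      rw [hby, ← hpo, mul_smul_comm, smul_mul_assoc]
      exact congrArg _ h2
    rw [← E4.sr_skb_eq_zero_iff ((e_sa_iff hφ _).1 hsy), hφ.pres, E4.sr_skb_eq_zero_iff hsy,
      e_corner_model hx hsy] at h3
    obtain ⟨p, hp⟩ := h3
    exact E4.parallel_of_smul_po (a := (p : ℂ)) (b := 1) one_ne_zero hx hy (by rw [one_smul, hp])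
  refine ⟨π, hπ, ?_, ?_⟩
  · intro u hu
    obtain ⟨a, x, ha, hx, hax⟩ := e_preimage_P hφ hH hu
    obtain ⟨hπx, b, hb, hbx⟩ := hπ x hx
    refine ⟨x, hx, ?_⟩
    exact E4.parallel_of_smul_po (a := (b : ℂ)) (b := (a : ℂ)) (by exact_mod_cast ha) hπx hu
      (by rw [← hax, ← hbx])
  · intro x y hx hy
    obtain ⟨hπx, a, ha, hax⟩ := hπ x hx
    obtain ⟨hπy, b, hb, hby⟩ := hπ y hy
    have ha' : (a : ℂ) ≠ 0 := by exact_mod_cast ha
    have hb' : (b : ℂ) ≠ 0 := by exact_mod_cast hb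
    have hc : Commute (po x x) (po y y) ↔ Commute (po (π x) (π x)) (po (π y) (π y)) := by
      rw [e_commute_iff hφ (E4.po_self_sa x) (E4.po_self_sa y), hax, hby]
      constructor
      · intro h
        have h2 := (h.smul_left (a : ℂ)⁻¹).smul_right (b : ℂ)⁻¹
        rwa [smul_smul, smul_smul, inv_mul_cancel₀ ha', inv_mul_cancel₀ hb', one_smul,
          one_smul] at h2
      · intro h
        exact (h.smul_left _).smul_right _
    constructor
    · intro h0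
      rcases E4.commute_po hπx hπy (hc.1 (E4.commute_po_of_orth h0)) with h | h
      · exact h
      · obtain ⟨c, -, hcy⟩ := par hx hy h
        exact absurd h0 (E4.inner_ne hx hy hcy)
    · intro h0
      rcases E4.commute_po hx hy (hc.2 (E4.commute_po_of_orth h0)) with h | ⟨c, -, h⟩
      · exact h
      · exfalso
        have hpo : po x x = po y y := E4.po_smul_phase h hx hy
        rw [hpo, hby] at hax
        obtain ⟨d, -, hd⟩ := E4.parallel_of_smul_po hb' hπx hπy hax.symm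
        exact E4.inner_ne hπx hπy hd h0

end pres

end PR
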