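import Pool.Agent.Helper40.PR.Defs2
import Pool.Agent.Helper59.PR.TK2
import Pool.Agent.Helper44.PR.TK3
import Pool.Agent.Helper65.PR.TK4A
import Pool.Agent.Helper55.PR.TK4B
import Pool.Agent.Helper54.PR.TK5

/-!
# Products `TS + ST` and `TS - ST`: tests (piece CD1)
-/

set_option autoImplicit false

namespace PR

open ContinuousLinearMap

section cd

variable {X : Type*} [NormedAddCommGroup X] [NormedSpace ℂ X] [CompleteSpace X]
variable {Y : Type*} [NormedAddCommGroup Y] [NormedSpace ℂ Y] [CompleteSpace Y]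
variable {σ : ℂ}

theorem norm_sigma (hσ : σ = 1 ∨ σ = -1) : ‖σ‖ = 1 := by
  rcases hσ with rfl | rfl <;> simp

theorem sr_bra_comm (hσ : σ = 1 ∨ σ = -1) (T S : X →L[ℂ] X) : sr (bra σ S T) = sr (bra σ T S) := by
  rcases hσ with rfl | rfl
  · congr 1
    simp only [bra, one_smul]
    exact add_comm _ _
  · rw [← sr_neg]
    congr 1
    simp only [bra, neg_smul, one_smul]
    abel

theorem bra_add_scalar (T S : X →L[ℂ] X) (c : ℂ) :
    bra (-1) (T + c • (1 : X →L[ℂ] X)) S = bra (-1) T S := by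
  simp only [bra, neg_smul, one_smul, add_mul, mul_add, smul_mul_assoc, mul_smul_comm, one_mul,
    mul_one]
  abel

theorem bra_smul_left (c : ℂ) (T S : X →L[ℂ] X) : bra σ (c • T) S = c • bra σ T S := by
  simp only [bra, smul_mul_assoc, mul_smul_comm, smul_add]
  rw [smul_comm]

theorem bra_rk (T : X →L[ℂ] X) (y : X) (g : X →L[ℂ] ℂ) :
    bra σ T (rk y g) = rk (T y) g + rk (σ • y) (g.comp T) := by
  ext z
  simp only [bra, add_apply, mul_apply_eq_comp, rk_apply, map_smul, smul_apply, comp_apply]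
  rw [smul_comm σ]

theorem sr_bra_rk (hσ : σ = 1 ∨ σ = -1) (T : X →L[ℂ] X) (y : X) (g : X →L[ℂ] ℂ) :
    sr (bra σ T (rk y g)) =
      Rt ((1 + σ) * g (T y)) (σ * (g (T y) ^ 2 - g y * g (T (T y)))) := by
  rw [bra_rk, sr_rk_add_rk]
  congr 1
  · simp only [comp_apply, map_smul, smul_eq_mul]
    ring
  · simp only [comp_apply, map_smul, smul_eq_mul]
    ring

theorem sr_bra_flag (hσ : σ = 1 ∨ σ = -1) (T : X →L[ℂ] X) {y : X} {g : X →L[ℂ] ℂ} (hg : g y = 0) :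
    sr (bra σ T (rk y g)) = ‖g (T y)‖ := by
  rw [sr_bra_rk hσ, hg]
  rcases hσ with rfl | rfl
  · rw [Rt_eq (l1 := g (T y)) (l2 := g (T y)) (by ring) (by ring), max_self]
  · have h1 : (1 + (-1 : ℂ)) * g (T y) = 0 := by ring
    rw [h1, Rt_zero_left]
    have h2 : ‖(-1 : ℂ) * (g (T y) ^ 2 - 0 * g (T (T y)))‖ = ‖g (T y)‖ ^ 2 := by
      rw [zero_mul, sub_zero, norm_mul, norm_neg, norm_one, one_mul, norm_pow]
    rw [h2]
    exact Real.sqrt_sq (norm_nonneg _)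

theorem sr_bra_rk_ge (hσ : σ = 1 ∨ σ = -1) (T : X →L[ℂ] X) (y : X) (g : X →L[ℂ] ℂ) :
    ‖g (T y) ^ 2 - g y * g (T (T y))‖ ≤ sr (bra σ T (rk y g)) ^ 2 := by
  rw [sr_bra_rk hσ]
  refine le_trans ?_ (norm_det_le _ _)
  rw [norm_mul, norm_sigma hσ, one_mul]

theorem sr_bra_self (T : X →L[ℂ] X) : sr (bra 1 T T) = 2 * sr T ^ 2 := by
  have h : bra 1 T T = (2 : ℂ) • T ^ 2 := by
    simp only [bra, one_smul, pow_two, two_smul]
  rw [h, sr_smul, sr_pow T two_ne_zero]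
  norm_num

theorem cd_id1 (hσ : σ = 1 ∨ σ = -1) {A B : X →L[ℂ] X} {C : ℂ → (X →L[ℂ] X)}
    (h : ∀ S, ∃ a b : ℂ, ∀ s, sr (bra σ (C s) S) = ‖a + s * b‖)
    {k : ℂ → ℂ} (hk : ∀ s s', ‖k s - k s'‖ = ‖s - s'‖)
    (hC : ∀ s, ∃ p γ : ℂ, ‖p‖ = 1 ∧ C s = p • (A + k s • B) + γ • (1 : X →L[ℂ] X)) :
    Id1 A B := by
  intro y g
  obtain ⟨a, b, hab⟩ := h (rk y g)
  refine quad_disc hk (a := a) (b := b) ?_
  intro s
  obtain ⟨p, γ, hp, hCs⟩ := hC s
  have h1 := sr_bra_rk_ge hσ (C s) y g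
  rw [hab s] at h1
  have h2 : g (C s y) ^ 2 - g y * g (C s (C s y)) = p ^ 2 * ((g (A y) ^ 2 - g y * g (A (A y))) +
      (2 * g (A y) * g (B y) - g y * (g (A (B y)) + g (B (A y)))) * k s +
      (g (B y) ^ 2 - g y * g (B (B y))) * k s ^ 2) := by
    rw [hCs]
    simp only [add_apply, smul_apply, one_apply_eq_self, map_add, map_smul, smul_eq_mul]
    ring
  rw [h2, norm_mul, norm_pow, hp, one_pow, one_mul] at h1
  exact h1

theorem cd_id2 (hσ : σ = 1 ∨ σ = -1) {A B : X →L[ℂ] X} {C : ℂ → (X →L[ℂ] X)}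
    (hA : A * A = 0) (hB : B * B = 0) (hAB : A * B + B * A = 0)
    (h : ∀ S, ∃ a b : ℂ, ∀ s, sr (bra σ (C s) S) = ‖a + s * b‖)
    {k : ℂ → ℂ} (hk : ∀ s s', ‖k s - k s'‖ = ‖s - s'‖)
    (hC : ∀ s, ∃ p γ : ℂ, ‖p‖ = 1 ∧ C s = p • (A + k s • B) + γ • (1 : X →L[ℂ] X) ∧
      (σ = 1 → γ = 0)) : Id2 A B := by
  intro y1 y2 g1 g2 _
  obtain ⟨a, b, hab⟩ := h (rk y1 g1 + rk y2 g2)
  have hsr : ∀ s, sr (bra σ (A + k s • B) (rk y1 g1 + rk y2 g2)) = ‖a + s * b‖ := by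
    intro s
    obtain ⟨p, γ, hp, hCs, hγ⟩ := hC s
    rw [← hab s, hCs]
    have h1 : bra σ (p • (A + k s • B) + γ • (1 : X →L[ℂ] X)) (rk y1 g1 + rk y2 g2) =
        p • bra σ (A + k s • B) (rk y1 g1 + rk y2 g2) := by
      rcases hσ with hσ | hσ
      · rw [hγ hσ, zero_smul, add_zero, bra_smul_left]
      · subst hσ
        rw [bra_add_scalar, bra_smul_left]
    rw [h1, sr_smul, hp, one_mul]
  have hsq : ∀ s, (A + k s • B) * (A + k s • B) = 0 := by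
    intro s
    have h1 : (A + k s • B) * (A + k s • B) = A * A + k s • (A * B + B * A) +
        (k s * k s) • (B * B) := by
      simp only [add_mul, mul_add, smul_mul_assoc, mul_smul_comm, smul_add, mul_smul]
      abel
    rw [h1, hA, hB, hAB]
    simp
  have key := fun s => det_le_sr_sq_zero (A + k s • B) (hsq s) σ y1 y2 g1 g2
  have hd : ∀ s, ‖(g1 (A y1) * g2 (A y2) - g1 (A y2) * g2 (A y1)) +
      (g1 (A y1) * g2 (B y2) + g1 (B y1) * g2 (A y2) - g1 (A y2) * g2 (B y1) -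
        g1 (B y2) * g2 (A y1)) * k s +
      (g1 (B y1) * g2 (B y2) - g1 (B y2) * g2 (B y1)) * k s ^ 2‖ ≤ ‖a + s * b‖ ^ 2 := by
    intro s
    have h1 := (key s).1
    have h2 : sr ((A + k s • B) * (rk y1 g1 + rk y2 g2) +
        σ • ((rk y1 g1 + rk y2 g2) * (A + k s • B))) = ‖a + s * b‖ := hsr s
    rw [h2] at h1
    refine le_trans (le_of_eq ?_) h1
    congr 1
    simp only [add_apply, smul_apply, map_add, map_smul, smul_eq_mul]
    ring
  have ht : ∀ s, ‖(g1 (A y1) + g2 (A y2)) + (g1 (B y1) + g2 (B y2)) * k s‖ ≤ 2 * ‖a + s * b‖ := by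
    intro s
    have h1 := (key s).2
    have h2 : sr ((A + k s • B) * (rk y1 g1 + rk y2 g2) +
        σ • ((rk y1 g1 + rk y2 g2) * (A + k s • B))) = ‖a + s * b‖ := hsr s
    rw [h2] at h1
    refine le_trans (le_of_eq ?_) h1
    congr 1
    simp only [add_apply, smul_apply, map_add, map_smul, smul_eq_mul]
    ring
  exact quad_lin hk hd ht

/-- the test of a flag in the first slot -/
theorem sr_bra_flag' (hσ : σ = 1 ∨ σ = -1) (S : X →L[ℂ] X) {y : X} {g : X →L[ℂ] ℂ} (hg : g y = 0) :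
    sr (bra σ (rk y g) S) = ‖g (S y)‖ := by
  rw [sr_bra_comm hσ, sr_bra_flag hσ S hg]

theorem exists_dual_one {x : X} (hx : x ≠ 0) : ∃ h : X →L[ℂ] ℂ, h x = 1 := by
  have hv : LinearIndependent ℂ ![x] := by
    rw [linearIndependent_unique_iff]
    exact hx
  obtain ⟨h, hh⟩ := exists_dual_fin hv (fun _ => 1)
  exact ⟨h, hh 0⟩

theorem exists_vec_one {f : X →L[ℂ] ℂ} (hf : f ≠ 0) : ∃ z : X, f z = 1 := by
  obtain ⟨z, hz⟩ : ∃ z, f z ≠ 0 := by
    by_contra hcon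
    push Not at hcon
    exact hf (ContinuousLinearMap.ext hcon)
  exact ⟨(f z)⁻¹ • z, by rw [map_smul, smul_eq_mul, inv_mul_cancel₀ hz]⟩

theorem lpcd_left (hσ : σ = 1 ∨ σ = -1) {x : X} (hx : x ≠ 0) {f g : X →L[ℂ] ℂ}
    (hfg : LinearIndependent ℂ ![f, g]) (hf : f x = 0) (hg : g x = 0) :
    LPcd σ (rk x f) (rk x g) := by
  have hs : ∀ s : ℂ, (f + s • g) x = 0 := by
    intro s
    simp [hf, hg]
  obtain ⟨h, hh⟩ := exists_dual_one hx
  refine ⟨fun s => rk x (f + s • g), ?_, ?_, ?_, ?_⟩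
  · intro S
    refine ⟨f (S x), g (S x), sr_bra_flag' hσ S hf, sr_bra_flag' hσ S hg, ?_⟩
    intro s
    simp only [sr_bra_flag' hσ S (hs s), add_apply, smul_apply, smul_eq_mul]
  · obtain ⟨z, hz⟩ := exists_vec_fin hfg ![0, 1]
    have hz0 : f z = 0 := hz 0
    have hz1 : g z = 1 := hz 1
    refine ⟨rk z h, ?_, ?_⟩
    · rw [sr_bra_flag' hσ _ hf, rk_apply, hh, one_smul, hz0, norm_zero]
    · rw [sr_bra_flag' hσ _ hg, rk_apply, hh, one_smul, hz1, norm_one]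
      exact one_ne_zero
  · obtain ⟨z, hz⟩ := exists_vec_fin hfg ![1, 0]
    have hz0 : f z = 1 := hz 0
    have hz1 : g z = 0 := hz 1
    refine ⟨rk z h, ?_, ?_⟩
    · rw [sr_bra_flag' hσ _ hg, rk_apply, hh, one_smul, hz1, norm_zero]
    · rw [sr_bra_flag' hσ _ hf, rk_apply, hh, one_smul, hz0, norm_one]
      exact one_ne_zero
  · intro _
    refine ⟨by rw [sr_rk, hf, norm_zero], by rw [sr_rk, hg, norm_zero], ?_⟩
    intro s
    rw [sr_rk, hs, norm_zero]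

theorem lpcd_right (hσ : σ = 1 ∨ σ = -1) {x y : X} (hxy : LinearIndependent ℂ ![x, y])
    {f : X →L[ℂ] ℂ} (hf : f ≠ 0) (hx : f x = 0) (hy : f y = 0) :
    LPcd σ (rk x f) (rk y f) := by
  have hs : ∀ s : ℂ, f (x + s • y) = 0 := by
    intro s
    simp [hx, hy]
  obtain ⟨z, hz⟩ := exists_vec_one hf
  refine ⟨fun s => rk (x + s • y) f, ?_, ?_, ?_, ?_⟩
  · intro S
    refine ⟨f (S x), f (S y), sr_bra_flag' hσ S hx, sr_bra_flag' hσ S hy, ?_⟩
    intro s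
    simp only [sr_bra_flag' hσ S (hs s), map_add, map_smul, smul_eq_mul]
  · obtain ⟨h, hh⟩ := exists_dual_fin hxy ![0, 1]
    have h0 : h x = 0 := hh 0
    have h1 : h y = 1 := hh 1
    refine ⟨rk z h, ?_, ?_⟩
    · rw [sr_bra_flag' hσ _ hx, rk_apply, h0, zero_smul, map_zero, norm_zero]
    · rw [sr_bra_flag' hσ _ hy, rk_apply, h1, one_smul, hz, norm_one]
      exact one_ne_zero
  · obtain ⟨h, hh⟩ := exists_dual_fin hxy ![1, 0]
    have h0 : h x = 1 := hh 0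
    have h1 : h y = 0 := hh 1
    refine ⟨rk z h, ?_, ?_⟩
    · rw [sr_bra_flag' hσ _ hy, rk_apply, h1, zero_smul, map_zero, norm_zero]
    · rw [sr_bra_flag' hσ _ hx, rk_apply, h0, one_smul, hz, norm_one]
      exact one_ne_zero
  · intro _
    refine ⟨by rw [sr_rk, hx, norm_zero], by rw [sr_rk, hy, norm_zero], ?_⟩
    intro s
    rw [sr_rk, hs, norm_zero]

theorem sr_map_of_bra {φ : (X →L[ℂ] X) → (Y →L[ℂ] Y)}
    (h : ∀ T S, sr (bra σ (φ T) (φ S)) = sr (bra σ T S)) (hσ : σ = 1) (T : X →L[ℂ] X) :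
    sr (φ T) = sr T := by
  subst hσ
  have h1 := h T T
  rw [sr_bra_self, sr_bra_self] at h1
  have h2 : sr (φ T) ^ 2 = sr T ^ 2 := by linarith
  exact (pow_left_inj₀ (sr_nonneg _) (sr_nonneg _) two_ne_zero).1 h2

theorem lpcd_map (hσ : σ = 1 ∨ σ = -1) {φ : (X →L[ℂ] X) → (Y →L[ℂ] Y)}
    (hs : Function.Surjective φ)
    (h : ∀ T S, sr (bra σ (φ T) (φ S)) = sr (bra σ T S)) (A B : X →L[ℂ] X) :
    LPcd σ A B ↔ LPcd σ (φ A) (φ B) := by
  constructor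
  · rintro ⟨C, h1, ⟨S1, h2, h2'⟩, ⟨S2, h3, h3'⟩, h4⟩
    refine ⟨fun s => φ (C s), ?_, ⟨φ S1, ?_, ?_⟩, ⟨φ S2, ?_, ?_⟩, ?_⟩
    · intro S'
      obtain ⟨S, rfl⟩ := hs S'
      simp only [h]
      exact h1 S
    · rw [h]; exact h2
    · rw [h]; exact h2'
    · rw [h]; exact h3
    · rw [h]; exact h3'
    · intro hσ1
      obtain ⟨h5, h6, h7⟩ := h4 hσ1
      refine ⟨by rw [sr_map_of_bra h hσ1, h5], by rw [sr_map_of_bra h hσ1, h6], ?_⟩
      intro s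
      rw [sr_map_of_bra h hσ1, h7]
  · rintro ⟨C', h1, ⟨S1', h2, h2'⟩, ⟨S2', h3, h3'⟩, h4⟩
    choose ψ hψ using hs
    obtain ⟨S1, rfl⟩ : ∃ S1, φ S1 = S1' := ⟨ψ S1', hψ _⟩
    obtain ⟨S2, rfl⟩ : ∃ S2, φ S2 = S2' := ⟨ψ S2', hψ _⟩
    refine ⟨fun s => ψ (C' s), ?_, ⟨S1, ?_, ?_⟩, ⟨S2, ?_, ?_⟩, ?_⟩
    · intro S
      have h5 := h1 (φ S)
      have h6 : ∀ s, sr (bra σ (C' s) (φ S)) = sr (bra σ (ψ (C' s)) S) := by
        intro s
        rw [← h, hψ]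
      simp only [h, h6] at h5
      exact h5
    · rw [← h]; exact h2
    · rw [← h]; exact h2'
    · rw [← h]; exact h3
    · rw [← h]; exact h3'
    · intro hσ1
      obtain ⟨h5, h6, h7⟩ := h4 hσ1
      refine ⟨by rw [← sr_map_of_bra h hσ1, h5], by rw [← sr_map_of_bra h hσ1, h6], ?_⟩
      intro s
      rw [← sr_map_of_bra h hσ1, hψ, h7]

theorem sr_bra_flag_scalar (hσ : σ = 1 ∨ σ = -1) (S : X →L[ℂ] X) {u : X} {k : X →L[ℂ] ℂ} {α : ℂ}
    (hku : k u = 0) (hα : σ = 1 → α = 0) :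
    sr (bra σ (rk u k + α • (1 : X →L[ℂ] X)) S) = ‖k (S u)‖ := by
  rcases hσ with hσ | hσ
  · rw [hα hσ, zero_smul, add_zero]
    exact sr_bra_flag' (Or.inl hσ) S hku
  · subst hσ
    rw [bra_add_scalar]
    exact sr_bra_flag' (Or.inr rfl) S hku

/-- scalar multiples of flags are mapped to scalar multiples -/
theorem cd_parallel (hσ : σ = 1 ∨ σ = -1) {φ : (X →L[ℂ] X) → (Y →L[ℂ] Y)}
    (hs : Function.Surjective φ)
    (h : ∀ T S, sr (bra σ (φ T) (φ S)) = sr (bra σ T S)) {T T' : X →L[ℂ] X}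
    (hT : ∀ S, sr (bra σ T S) = 0 ↔ sr (bra σ T' S) = 0)
    {u v : Y} {k l : Y →L[ℂ] ℂ} {α β : ℂ} (hu : u ≠ 0) (hv : v ≠ 0) (hk : k ≠ 0) (hl : l ≠ 0)
    (hku : k u = 0) (hlv : l v = 0)
    (h1 : φ T = rk u k + α • (1 : Y →L[ℂ] Y)) (h2 : φ T' = rk v l + β • (1 : Y →L[ℂ] Y))
    (hαβ : σ = 1 → α = 0 ∧ β = 0) :
    (∃ c : ℂ, v = c • u) ∧ (∃ c : ℂ, l = c • k) := by
  have key : ∀ S' : Y →L[ℂ] Y, k (S' u) = 0 ↔ l (S' v) = 0 := by
    intro S'
    obtain ⟨S, rfl⟩ := hs S'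
    have h3 := hT S
    rw [← h T S, ← h T' S, h1, h2, sr_bra_flag_scalar hσ _ hku (fun hh => (hαβ hh).1),
      sr_bra_flag_scalar hσ _ hlv (fun hh => (hαβ hh).2), norm_eq_zero, norm_eq_zero] at h3
    exact h3
  have hv' : ∃ c : ℂ, v = c • u := by
    by_contra hcon
    have hnot : v ∉ Submodule.span ℂ (Set.range ![u]) := by
      intro hmem
      rw [Matrix.range_cons, Matrix.range_empty, Set.union_empty,
        Submodule.mem_span_singleton] at hmem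
      obtain ⟨c, hc⟩ := hmem
      exact hcon ⟨c, hc.symm⟩
    obtain ⟨e, he0, he1⟩ := exists_dual_sep hnot
    have he0' : e u = 0 := he0 0
    obtain ⟨z, hz⟩ := exists_vec_one hl
    have h3 := (key (rk z e)).1 (by rw [rk_apply, he0', zero_smul, map_zero])
    rw [rk_apply, he1, one_smul, hz] at h3
    exact one_ne_zero h3
  refine ⟨hv', ?_⟩
  obtain ⟨c, rfl⟩ := hv'
  have hc : c ≠ 0 := by
    rintro rfl
    exact hv (zero_smul _ _)
  have hker : ∀ z, k z = 0 → l z = 0 := by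
    intro z hz
    obtain ⟨e, he⟩ := exists_dual_one hu
    have h3 := (key (rk z e)).1 (by rw [rk_apply, he, one_smul, hz])
    have h4 : e (c • u) = c := by rw [map_smul, he, smul_eq_mul, mul_one]
    rw [rk_apply, h4, map_smul, smul_eq_mul] at h3
    exact (mul_eq_zero.1 h3).resolve_left hc
  obtain ⟨w, hw⟩ := exists_vec_one hk
  refine ⟨l w, ?_⟩
  ext z
  have h4 := hker (z - k z • w) (by rw [map_sub, map_smul, hw, smul_eq_mul, mul_one, sub_self])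
  rw [map_sub, map_smul, smul_eq_mul, sub_eq_zero] at h4
  rw [h4, smul_apply, smul_eq_mul, mul_comm]

end cd

end PR
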