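import Pool.Agent.Helper8.PR.Sim
import Pool.Agent.Helper8.PQ.AsymS

/-!
# The bound for real register machines
-/

set_option autoImplicit false

namespace Pool.Agent.Helper8.PR

open Finset
open Pool.Agent.Helper22.ETModel

/-- Real register machines with little memory. -/
theorem asymR (d c : ℕ) (w ε : ℝ) (hd : 1 ≤ d) (hw : 0 ≤ w) (hε : 0 < ε)
    (h : w * (d * (2 / ε + 3) + 1) + 2 * (d + 1) * (d + 4) < c) :
    ∃ δ : ℝ, 0 < δ ∧ ∃ n₀ : ℕ, ∀ n : ℕ, n₀ ≤ n → ∀ a C K D r R : ℕ, (a : ℝ) ≤ (n : ℝ) ^ δ →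
      ((min K (C * D) : ℕ) : ℝ) ≤ (n : ℝ) ^ w → ∀ A : Mach n D r R, A.Within c C K d a →
        A.Decides c → (n : ℝ) ^ (3 - ε) ≤ D * (1 + Real.logb 2 C) := by
  obtain ⟨δ, hδ, n₀, hmain⟩ := Pool.Agent.Helper8.PQ.asymS d c w ε hd hw hε h
  refine ⟨δ, hδ, n₀, fun n hn a C K D r R ha hK A hA hdec => ?_⟩
  have hA' : A.Within c C (min K (C * D)) d a := by
    rcases le_total K (C * D) with h1 | h1
    · rw [min_eq_left h1]
      exact hA
    · rw [min_eq_right h1]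
      exact hA.trivial
  obtain ⟨A', hA1, hA2⟩ := A.simulate hA' hdec
  exact hmain n hn a (min K (C * D)) D C R ha hK A' hA2 hA1

end Pool.Agent.Helper8.PR
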